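import Pool.Agent.TH399.CC.MainK

set_option autoImplicit false
set_option linter.unusedSectionVars false

/-!
Final forms.
-/

namespace Pool.Agent.TH399.CC

open Finset
open Pool.Agent.Helper879.ECD (cn)
open Pool.Agent.H126R2.CDC (MGraph)
open Pool.Agent.H126R2.NC (InCone InLat InIntCone cone_lat_of_intCone)

variable {V E : Type} [Fintype V] [DecidableEq V] [Fintype E] [DecidableEq E]

lemma arith (K x y : ℕ) (hK : 4 ≤ K) (h : (K + 2) * x + 12 * K ^ 2 ≤ (3 * K - 2) * y) :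
    (K + 2) * (x / 2) + 2 * (K - 2) * (3 * K + 5) ≤ (3 * K - 2) * (y / 2) := by
  obtain ⟨m, rfl⟩ : ∃ m, K = m + 2 := ⟨K - 2, by omega⟩
  have h32 : 3 * (m + 2) - 2 = 3 * m + 4 := by omega
  have h2 : m + 2 - 2 = m := by omega
  rw [h32] at h ⊢
  rw [h2]
  have hx : 2 * (x / 2) ≤ x := by omega
  have hy : y ≤ 2 * (y / 2) + 1 := by omega
  generalize x / 2 = x' at hx ⊢
  generalize y / 2 = y' at hy ⊢
  have h3 : (m + 2 + 2) * (2 * x') ≤ (m + 2 + 2) * x := Nat.mul_le_mul_left _ hx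
  have h4 : (3 * m + 4) * y ≤ (3 * m + 4) * (2 * y' + 1) := Nat.mul_le_mul_left _ hy
  nlinarith

/-- graphs whose nonempty cuts have at least `K` edges -/
theorem large_cuts (K : ℕ) (hK : 4 ≤ K) (G : MGraph V E)
    (hcut : ∀ B : Finset V, (bdry G univ B).card = 0 ∨ K ≤ (bdry G univ B).card)
    (p : E → ℕ) (hr : ∀ e f, (K + 2) * p e + 12 * K ^ 2 ≤ (3 * K - 2) * p f) :
    InIntCone G p ↔ InLat G p := by
  refine ⟨fun h => (cone_lat_of_intCone G p h).2, fun h => ?_⟩
  obtain ⟨v, hv⟩ := G.exists_halves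
  have h3 := cover_evenK K hK G v hv (fun X => by
      rw [← bdry_card G v hv univ X]
      exact hcut X) (fun e => p e / 2) (fun e f => arith K (p e) (p f) hK (hr e f))
  exact intCone_add G h3 (odd_part G p h) (fun e => (Nat.div_add_mod (p e) 2).symm)

end Pool.Agent.TH399.CC
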