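import Pool.Agent.H126R2.NC.L1

set_option autoImplicit false
set_option linter.unusedSectionVars false

/-!
Gadgets: a gadget consists of two pairs of edges and is satisfied by a two-colouring if one of the
two pairs gets both colours. Resolution of the gadgets at a vertex.
-/

namespace Pool.Agent.TH399.CC

open Finset

variable {E : Type} [DecidableEq E]

/-- two pairs of edges -/
abbrev Gad (E : Type) := (E × E) × (E × E)

/-- one of the two pairs has two colours -/
def sat (c : E → Bool) (g : Gad E) : Prop := c g.1.1 ≠ c g.1.2 ∨ c g.2.1 ≠ c g.2.2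

/-- the edges of a gadget -/
def sup (g : Gad E) : Finset E := {g.1.1, g.1.2, g.2.1, g.2.2}

/-- four different edges, or a triple `((x, y), (y, z))` -/
def Val (g : Gad E) : Prop :=
  g.1.1 ≠ g.1.2 ∧ g.2.1 ≠ g.2.2 ∧ g.1.1 ≠ g.2.1 ∧ g.1.1 ≠ g.2.2 ∧ g.1.2 ≠ g.2.2

lemma mem_sup {g : Gad E} {e : E} :
    e ∈ sup g ↔ e = g.1.1 ∨ e = g.1.2 ∨ e = g.2.1 ∨ e = g.2.2 := by
  simp [sup]

lemma sat_congr {c c' : E → Bool} {g : Gad E} (h : ∀ e ∈ sup g, c e = c' e) :
    sat c g ↔ sat c' g := by
  unfold sat
  rw [h g.1.1 (mem_sup.2 (Or.inl rfl)), h g.1.2 (mem_sup.2 (Or.inr (Or.inl rfl))),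
    h g.2.1 (mem_sup.2 (Or.inr (Or.inr (Or.inl rfl)))),
    h g.2.2 (mem_sup.2 (Or.inr (Or.inr (Or.inr rfl))))]

/-- every edge of a gadget has a partner, and there is a pair avoiding the edge, such that one
bichromatic pair suffices -/
lemma split_gad {g : Gad E} (hg : Val g) {f : E} (hf : f ∈ sup g) :
    ∃ p y z : E, p ∈ sup g ∧ y ∈ sup g ∧ z ∈ sup g ∧ p ≠ f ∧ y ≠ f ∧ z ≠ f ∧ y ≠ z ∧
      ∀ c : E → Bool, (c f ≠ c p ∨ c y ≠ c z) → sat c g := by
  obtain ⟨⟨x, x'⟩, ⟨y, y'⟩⟩ := g
  obtain ⟨h1, h2, h3, h4, h5⟩ := hg
  simp only at h1 h2 h3 h4 h5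
  have m1 : x ∈ sup ((x, x'), (y, y')) := mem_sup.2 (Or.inl rfl)
  have m2 : x' ∈ sup ((x, x'), (y, y')) := mem_sup.2 (Or.inr (Or.inl rfl))
  have m3 : y ∈ sup ((x, x'), (y, y')) := mem_sup.2 (Or.inr (Or.inr (Or.inl rfl)))
  have m4 : y' ∈ sup ((x, x'), (y, y')) := mem_sup.2 (Or.inr (Or.inr (Or.inr rfl)))
  rw [mem_sup] at hf
  simp only at hf
  by_cases hxy : x' = y
  · subst hxy
    rcases hf with rfl | rfl | rfl | rfl
    · exact ⟨x', x', y', m2, m2, m4, Ne.symm h1, Ne.symm h1, Ne.symm h4, h2,
        fun c hc => by simpa [sat] using hc⟩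
    · refine ⟨x, x, y', m1, m1, m4, h1, h1, Ne.symm h2, h4, fun c hc => ?_⟩
      simp only [sat]
      rcases hc with hc | hc
      · exact Or.inl (Ne.symm hc)
      · by_cases h6 : c x = c f
        · right
          rw [← h6]
          exact hc
        · exact Or.inl h6
    · refine ⟨x, x, y', m1, m1, m4, h1, h1, Ne.symm h2, h4, fun c hc => ?_⟩
      simp only [sat]
      rcases hc with hc | hc
      · exact Or.inl (Ne.symm hc)
      · by_cases h6 : c x = c f
        · right
          rw [← h6]
          exact hc
        · exact Or.inl h6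
    · refine ⟨x', x, x', m2, m1, m2, h2, h4, h2, h1, fun c hc => ?_⟩
      simp only [sat]
      rcases hc with hc | hc
      · exact Or.inr (Ne.symm hc)
      · exact Or.inl hc
  · rcases hf with rfl | rfl | rfl | rfl
    · exact ⟨x', y, y', m2, m3, m4, Ne.symm h1, Ne.symm h3, Ne.symm h4, h2, fun c hc => hc⟩
    · refine ⟨x, y, y', m1, m3, m4, h1, Ne.symm hxy, Ne.symm h5, h2, fun c hc => ?_⟩
      simp only [sat]
      rcases hc with hc | hc
      · exact Or.inl (Ne.symm hc)
      · exact Or.inr hc
    · refine ⟨y', x, x', m4, m1, m2, Ne.symm h2, h3, hxy, h1, fun c hc => ?_⟩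
      simp only [sat]
      rcases hc with hc | hc
      · exact Or.inr hc
      · exact Or.inl hc
    · refine ⟨y, x, x', m3, m1, m2, h2, h4, h5, h1, fun c hc => ?_⟩
      simp only [sat]
      rcases hc with hc | hc
      · exact Or.inr (Ne.symm hc)
      · exact Or.inl hc

lemma free_one {g : Gad E} (hg : Val g) {f : E} (hf : f ∈ sup g) (c : E → Bool) :
    ∃ v : Bool, sat (Function.update c f v) g := by
  obtain ⟨p, y, z, _, _, _, hp, _, _, _, h⟩ := split_gad hg hf
  refine ⟨!c p, h _ (Or.inl ?_)⟩
  rw [Function.update_self, Function.update_of_ne hp]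
  cases c p <;> simp

lemma free_two {g g' : Gad E} (hg : Val g) (hg' : Val g') {f f' : E} (hne : f ≠ f')
    (hf : f ∈ sup g) (hf' : f' ∈ sup g') (c : E → Bool) :
    ∃ v v' : Bool, sat (Function.update (Function.update c f v) f' v') g ∧
      sat (Function.update (Function.update c f v) f' v') g' := by
  obtain ⟨p, y, z, _, _, _, hp, _, _, _, h⟩ := split_gad hg hf
  obtain ⟨p', y', z', _, _, _, hp', _, _, _, h'⟩ := split_gad hg' hf'
  have key : ∃ v v' : Bool,
      (Function.update (Function.update c f v) f' v') f ≠
        (Function.update (Function.update c f v) f' v') p ∧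
      (Function.update (Function.update c f v) f' v') f' ≠
        (Function.update (Function.update c f v) f' v') p' := by
    by_cases h1 : p = f'
    · by_cases h2 : p' = f
      · refine ⟨true, false, ?_, ?_⟩
        · rw [h1, Function.update_of_ne hne, Function.update_self, Function.update_self]
          decide
        · rw [h2, Function.update_of_ne hne, Function.update_self, Function.update_self]
          decide
      · refine ⟨c p', !c p', ?_, ?_⟩
        · rw [h1, Function.update_of_ne hne, Function.update_self, Function.update_self]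
          cases c p' <;> simp
        · rw [Function.update_self, Function.update_of_ne hp', Function.update_of_ne h2]
          cases c p' <;> simp
    · by_cases h2 : p' = f
      · refine ⟨!c p, c p, ?_, ?_⟩
        · rw [Function.update_of_ne hne, Function.update_self, Function.update_of_ne h1,
            Function.update_of_ne hp]
          cases c p <;> simp
        · rw [h2, Function.update_self, Function.update_of_ne hne, Function.update_self]
          cases c p <;> simp
      · refine ⟨!c p, !c p', ?_, ?_⟩
        · rw [Function.update_of_ne hne, Function.update_self, Function.update_of_ne h1,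
            Function.update_of_ne hp]
          cases c p <;> simp
        · rw [Function.update_self, Function.update_of_ne hp', Function.update_of_ne h2]
          cases c p' <;> simp
  obtain ⟨v, v', k1, k2⟩ := key
  exact ⟨v, v', h _ (Or.inl k1), h' _ (Or.inl k2)⟩

/-- number of gadgets of the list using `e` -/
def cnt (e : E) (L : List (Gad E)) : ℕ := L.countP (fun g => decide (e ∈ sup g))

lemma cnt_cons (e : E) (g : Gad E) (L : List (Gad E)) :
    cnt e (g :: L) = cnt e L + (if e ∈ sup g then 1 else 0) := by
  unfold cnt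
  rw [List.countP_cons]
  simp

lemma cnt_append (e : E) (L L' : List (Gad E)) : cnt e (L ++ L') = cnt e L + cnt e L' := by
  unfold cnt
  rw [List.countP_append]

lemma cnt_perm (e : E) {L L' : List (Gad E)} (h : L.Perm L') : cnt e L = cnt e L' := by
  unfold cnt
  exact h.countP_eq _

lemma cnt_pos {e : E} {L : List (Gad E)} : 0 < cnt e L ↔ ∃ g ∈ L, e ∈ sup g := by
  unfold cnt
  rw [List.countP_pos_iff]
  simp

lemma cnt_zero {e : E} {L : List (Gad E)} : cnt e L = 0 ↔ ∀ g ∈ L, e ∉ sup g := by
  unfold cnt
  rw [List.countP_eq_zero]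
  simp

/-- resolution: gadgets using an edge of `X` are removed or replaced -/
theorem resolve (X : Finset E) : ∀ (n : ℕ) (L : List (Gad E)), L.length = n →
    (∀ g ∈ L, Val g) → (∀ e, cnt e L ≤ 2) → (∀ e, e ∉ X → cnt e L ≤ 1) →
    ∃ L' : List (Gad E), (∀ g ∈ L', Val g) ∧
      (∀ g ∈ L', ∀ e ∈ sup g, e ∉ X ∧ ∃ g0 ∈ L, e ∈ sup g0) ∧ (∀ e, cnt e L' ≤ 1) ∧
      ∀ c : E → Bool, (∀ g ∈ L', sat c g) →
        ∃ c' : E → Bool, (∀ e, e ∉ X → c' e = c e) ∧ ∀ g ∈ L, sat c' g := by
  intro n
  induction n using Nat.strong_induction_on with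
  | _ n ih =>
  intro L hL hV h2 h1
  by_cases hex : ∃ f ∈ X, ∃ g ∈ L, f ∈ sup g
  swap
  · push Not at hex
    refine ⟨L, hV, fun g hg e he => ⟨fun hX => hex e hX g hg he, g, hg, he⟩, ?_,
      fun c hc => ⟨c, fun _ _ => rfl, hc⟩⟩
    intro e
    by_cases he : e ∈ X
    · have : cnt e L = 0 := cnt_zero.2 (fun g hg => hex e he g hg)
      omega
    · exact h1 e he
  · obtain ⟨f, hfX, g, hgL, hfg⟩ := hex
    have hp1 := List.perm_cons_erase hgL
    set L1 := L.erase g with hL1
    have hlen1 : L1.length + 1 = n := by
      rw [← hL, hp1.length_eq, List.length_cons]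
    have hV1 : ∀ g' ∈ L1, Val g' := fun g' hg' => hV g' (List.mem_of_mem_erase hg')
    have hVg := hV g hgL
    have hc1 : ∀ e, cnt e L = cnt e L1 + (if e ∈ sup g then 1 else 0) := fun e => by
      rw [cnt_perm e hp1, cnt_cons]
    by_cases hf1 : ∃ g2 ∈ L1, f ∈ sup g2
    swap
    · -- `f` is private
      push Not at hf1
      obtain ⟨L', k1, k2, k3, k4⟩ := ih L1.length (by omega) L1 rfl hV1
        (fun e => by have := h2 e; have := hc1 e; omega)
        (fun e he => by have := h1 e he; have := hc1 e; omega)
      refine ⟨L', k1, fun g' hg' e he => ?_, k3, fun c hc => ?_⟩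
      · obtain ⟨m1, g0, m2, m3⟩ := k2 g' hg' e he
        exact ⟨m1, g0, List.mem_of_mem_erase m2, m3⟩
      · obtain ⟨c1, m1, m2⟩ := k4 c hc
        obtain ⟨v, hv⟩ := free_one hVg hfg c1
        refine ⟨Function.update c1 f v, fun e he => ?_, fun g' hg' => ?_⟩
        · rw [Function.update_of_ne (fun hh : e = f => he (by rw [hh]; exact hfX)), m1 e he]
        · rcases List.mem_cons.1 (hp1.mem_iff.1 hg') with h3 | h3
          · rw [h3]; exact hv
          · rw [sat_congr (c' := c1)]
            · exact m2 g' h3
            · intro e he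
              exact Function.update_of_ne (fun hh : e = f => hf1 g' h3 (by rw [← hh]; exact he)) _ _
    · obtain ⟨g2, hg2L, hfg2⟩ := hf1
      have hp2 := List.perm_cons_erase hg2L
      set L2 := L1.erase g2 with hL2
      have hlen2 : L2.length + 2 = n := by
        rw [← hlen1, hp2.length_eq, List.length_cons]
      have hV2 : ∀ g' ∈ L2, Val g' := fun g' hg' => hV1 g' (List.mem_of_mem_erase hg')
      have hVg2 := hV1 g2 hg2L
      have hc2 : ∀ e, cnt e L = cnt e L2 + (if e ∈ sup g2 then 1 else 0) +
          (if e ∈ sup g then 1 else 0) := fun e => by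
        rw [hc1 e, cnt_perm e hp2, cnt_cons]
      have hmem : ∀ g', g' ∈ L ↔ g' = g ∨ g' = g2 ∨ g' ∈ L2 := by
        intro g'
        rw [hp1.mem_iff, List.mem_cons, hp2.mem_iff, List.mem_cons]
      have hz : ∀ e, e ∈ sup g → e ∈ sup g2 → (e ∈ X ∧ ∀ g' ∈ L2, e ∉ sup g') := by
        intro e m1 m2
        have m3 := hc2 e
        rw [if_pos m1, if_pos m2] at m3
        have m4 := h2 e
        refine ⟨?_, ?_⟩
        · by_contra hX
          have := h1 e hX
          omega
        · apply cnt_zero.1
          omega
      by_cases hsh : ∃ f' : E, f' ≠ f ∧ f' ∈ sup g ∧ f' ∈ sup g2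
      · -- two common edges
        obtain ⟨f', hne, hf'1, hf'2⟩ := hsh
        obtain ⟨L', k1, k2, k3, k4⟩ := ih L2.length (by omega) L2 rfl hV2
          (fun e => by have := h2 e; have := hc2 e; omega)
          (fun e he => by have := h1 e he; have := hc2 e; omega)
        refine ⟨L', k1, fun g' hg' e he => ?_, k3, fun c hc => ?_⟩
        · obtain ⟨m1, g0, m2, m3⟩ := k2 g' hg' e he
          exact ⟨m1, g0, (hmem g0).2 (Or.inr (Or.inr m2)), m3⟩
        · obtain ⟨c1, m1, m2⟩ := k4 c hc
          obtain ⟨v, v', hv, hv'⟩ := free_two hVg hVg2 hne.symm hfg hf'2 c1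
          refine ⟨Function.update (Function.update c1 f v) f' v', fun e he => ?_, fun g' hg' => ?_⟩
          · rw [Function.update_of_ne (fun hh : e = f' => he (by rw [hh]; exact (hz f' hf'1 hf'2).1)),
              Function.update_of_ne (fun hh : e = f => he (by rw [hh]; exact hfX)), m1 e he]
          · rcases (hmem g').1 hg' with h3 | h3 | h3
            · rw [h3]; exact hv
            · rw [h3]; exact hv'
            · rw [sat_congr (c' := c1)]
              · exact m2 g' h3
              · intro e he
                rw [Function.update_of_ne (fun hh : e = f' => (hz f' hf'1 hf'2).2 g' h3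
                    (by rw [← hh]; exact he)),
                  Function.update_of_ne (fun hh : e = f => (hz f hfg hfg2).2 g' h3
                    (by rw [← hh]; exact he))]
      · -- exactly one common edge
        push Not at hsh
        obtain ⟨p, y, z, mp, my, mz, np, ny, nz, hyz, hs⟩ := split_gad hVg hfg
        obtain ⟨p', y', z', mp', my', mz', np', ny', nz', hyz', hs'⟩ := split_gad hVg2 hfg2
        have hdisj : ∀ e e', e ≠ f → e ∈ sup g → e' ∈ sup g2 → e ≠ e' := by
          intro e e' m1 m2 m3 m4
          exact hsh e m1 m2 (m4 ▸ m3)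
        let h : Gad E := ((y, z), (y', z'))
        have hVh : Val h := ⟨hyz, hyz', hdisj _ _ ny my my', hdisj _ _ ny my mz',
          hdisj _ _ nz mz mz'⟩
        have hsh1 : ∀ e ∈ sup h, e ≠ f ∧ (e ∈ sup g ∨ e ∈ sup g2) := by
          intro e he
          rw [mem_sup] at he
          rcases he with rfl | rfl | rfl | rfl
          · exact ⟨ny, Or.inl my⟩
          · exact ⟨nz, Or.inl mz⟩
          · exact ⟨ny', Or.inr my'⟩
          · exact ⟨nz', Or.inr mz'⟩
        have hle : ∀ e, cnt e (h :: L2) ≤ cnt e L := by
          intro e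
          rw [cnt_cons, hc2 e]
          by_cases he : e ∈ sup h
          · rw [if_pos he]
            rcases (hsh1 e he).2 with m | m
            · rw [if_pos m]; omega
            · rw [if_pos m]; omega
          · rw [if_neg he]; omega
        obtain ⟨L', k1, k2, k3, k4⟩ := ih (h :: L2).length
          (by rw [List.length_cons]; omega) (h :: L2) rfl
          (by
            intro g' hg'
            rcases List.mem_cons.1 hg' with m | m
            · rw [m]; exact hVh
            · exact hV2 g' m)
          (fun e => (hle e).trans (h2 e)) (fun e he => (hle e).trans (h1 e he))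
        refine ⟨L', k1, fun g' hg' e he => ?_, k3, fun c hc => ?_⟩
        · obtain ⟨m1, g0, m2, m3⟩ := k2 g' hg' e he
          refine ⟨m1, ?_⟩
          rcases List.mem_cons.1 m2 with m | m
          · rw [m] at m3
            rcases (hsh1 e m3).2 with m4 | m4
            · exact ⟨g, hgL, m4⟩
            · exact ⟨g2, (hmem g2).2 (Or.inr (Or.inl rfl)), m4⟩
          · exact ⟨g0, (hmem g0).2 (Or.inr (Or.inr m)), m3⟩
        · obtain ⟨c1, m1, m2⟩ := k4 c hc
          have msat := m2 h (List.mem_cons_self)
          have m2' : ∀ g' ∈ L2, sat c1 g' := fun g' hg' => m2 g' (List.mem_cons_of_mem _ hg')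
          obtain ⟨v, hv, hv'⟩ : ∃ v : Bool, sat (Function.update c1 f v) g ∧
              sat (Function.update c1 f v) g2 := by
            rcases msat with m | m
            · refine ⟨!c1 p', hs _ (Or.inr ?_), hs' _ (Or.inl ?_)⟩
              · rw [Function.update_of_ne ny, Function.update_of_ne nz]
                exact m
              · rw [Function.update_self, Function.update_of_ne np']
                cases c1 p' <;> simp
            · refine ⟨!c1 p, hs _ (Or.inl ?_), hs' _ (Or.inr ?_)⟩
              · rw [Function.update_self, Function.update_of_ne np]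
                cases c1 p <;> simp
              · rw [Function.update_of_ne ny', Function.update_of_ne nz']
                exact m
          refine ⟨Function.update c1 f v, fun e he => ?_, fun g' hg' => ?_⟩
          · rw [Function.update_of_ne (fun hh : e = f => he (by rw [hh]; exact hfX)), m1 e he]
          · rcases (hmem g').1 hg' with h3 | h3 | h3
            · rw [h3]; exact hv
            · rw [h3]; exact hv'
            · rw [sat_congr (c' := c1)]
              · exact m2' g' h3
              · intro e he
                exact Function.update_of_ne (fun hh : e = f => (hz f hfg hfg2).2 g' h3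
                  (by rw [← hh]; exact he)) _ _

end Pool.Agent.TH399.CC
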