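import Pool.Agent.TH399.CC.Main

set_option autoImplicit false
set_option linter.unusedSectionVars false

/-!
Circuit covers of weightings which are constant on a spanning two-edge-connected subgraph and at
most about twice that constant elsewhere.
-/

namespace Pool.Agent.TH399.CC

open Finset
open Pool.Agent.Helper879.ECD (F2 IsFlow f2_add_self f2_cases cn)
open Pool.Agent.H126R2.CDC (MGraph isFl_iff)
open Pool.Agent.H126R2.NC (TC rep InCone InLat InIntCone cone_lat_of_intCone cover_minus
  bridgeless_of_cone const_of_tc countP_sum f2_ne cr)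

variable {V E : Type} [Fintype V] [DecidableEq V] [Fintype E] [DecidableEq E]

/-- the edges of `H` with exactly one end-vertex in `B` -/
def bdry (G : MGraph V E) (H : Finset E) (B : Finset V) : Finset E :=
  H.filter (fun e => (∃ x ∈ G.ends e, x ∈ B) ∧ ∃ x ∈ G.ends e, x ∉ B)

lemma bdry_card (G : MGraph V E) (v : E × Bool → V)
    (hv : ∀ e, G.ends e = s(v (e, false), v (e, true))) (H : Finset E) (B : Finset V) :
    (bdry G H B).card = cn (fun e => v (e, false)) (fun e => v (e, true)) H B := by
  unfold bdry cn
  congr 1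
  apply Finset.filter_congr
  intro e _
  rw [hv e]
  simp only [Sym2.mem_iff]
  constructor
  · rintro ⟨⟨x, hx, hxB⟩, y, hy, hyB⟩ h
    rcases hx with rfl | rfl <;> rcases hy with rfl | rfl
    · exact hyB hxB
    · exact hyB (h.1 hxB)
    · exact hyB (h.2 hxB)
    · exact hyB hxB
  · intro h
    by_cases h1 : v (e, false) ∈ B
    · by_cases h2 : v (e, true) ∈ B
      · exact absurd ⟨fun _ => h2, fun _ => h1⟩ h
      · exact ⟨⟨_, Or.inl rfl, h1⟩, _, Or.inr rfl, h2⟩
    · by_cases h2 : v (e, true) ∈ B
      · exact ⟨⟨_, Or.inr rfl, h2⟩, _, Or.inl rfl, h1⟩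
      · exact absurd ⟨fun h => absurd h h1, fun h => absurd h h2⟩ h

/-- weights equal to `c` on a spanning two-edge-connected subgraph -/
theorem cover_span (G : MGraph V E) (H : Finset E) (c : ℕ) (p : E → ℕ)
    (hH : ∀ B : Finset V, B.Nonempty → B ≠ univ → 2 ≤ (bdry G H B).card)
    (hc : ∀ e ∈ H, p e = c) (hp : ∀ e, e ∉ H → p e + 10 ≤ 2 * c) (hlat : InLat G p) :
    InIntCone G p := by
  classical
  obtain ⟨v, hv⟩ := G.exists_halves
  set a : E → V := fun e => v (e, false) with ha
  set b : E → V := fun e => v (e, true) with hb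
  have hH' : ∀ B : Finset V, cn a b H B ≠ 0 → 2 ≤ cn a b H B := by
    intro B hB
    rw [← bdry_card G v hv H B]
    apply hH
    · by_contra h
      rw [Finset.not_nonempty_iff_eq_empty] at h
      apply hB
      unfold cn
      rw [Finset.card_eq_zero, Finset.filter_eq_empty_iff]
      intro e _
      simp [h]
    · intro h
      apply hB
      unfold cn
      rw [Finset.card_eq_zero, Finset.filter_eq_empty_iff]
      intro e _
      simp [h]
  have hspan : ∀ B : Finset V, ∀ e, cr a b B e → 2 ≤ cn a b H B := by
    intro B e he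
    rw [← bdry_card G v hv H B]
    apply hH
    · by_contra h
      rw [Finset.not_nonempty_iff_eq_empty] at h
      apply he
      simp [h]
    · intro h
      apply he
      simp [h]
  -- no two-edge cuts with an edge outside `H`
  have htc : ∀ e, e ∉ H → ∀ f, TC a b e f → f = e := by
    intro e he f hef
    by_contra hne
    obtain ⟨z, hz⟩ := hef
    have hcr : ∀ h, cr a b (univ.filter (fun w => z w = 1)) h ↔ (h = e ∨ h = f) := by
      intro h
      have h1 : cr a b (univ.filter (fun w => z w = 1)) h ↔ z (a h) + z (b h) = 1 := by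
        simp only [cr, Finset.mem_filter, Finset.mem_univ, true_and]
        exact f2_ne
      rw [h1, hz h]
      by_cases h2 : h = e
      · have h3 : ¬ h = f := fun h3 => hne (h3.symm.trans h2)
        simp [h2, Ne.symm hne]
      · by_cases h3 : h = f
        · simp [h3, hne]
        · simp [h2, h3]
    have h1 := hspan (univ.filter (fun w => z w = 1)) e ((hcr e).2 (Or.inl rfl))
    have h2 : cn a b H (univ.filter (fun w => z w = 1)) ≤ ({f} : Finset E).card := by
      unfold cn
      apply Finset.card_le_card
      intro h hh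
      rw [Finset.mem_filter] at hh
      rw [Finset.mem_singleton]
      rcases (hcr h).1 hh.2 with h3 | h3
      · exact absurd (h3 ▸ hh.1) he
      · exact h3
    rw [Finset.card_singleton] at h2
    omega
  have hdel : ∀ X' : Finset E, (∀ e ∈ X', e ∉ H) → ∀ B : Finset V, cn a b (univ \ X') B ≠ 1 := by
    intro X' hX' B h1
    have h2 : cn a b H B ≤ cn a b (univ \ X') B := by
      unfold cn
      apply Finset.card_le_card
      intro e he
      rw [Finset.mem_filter] at he ⊢
      refine ⟨?_, he.2⟩
      rw [Finset.mem_sdiff]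
      exact ⟨Finset.mem_univ _, fun h => hX' e h he.1⟩
    obtain ⟨e, he⟩ := Finset.card_pos.1 (show 0 < ((univ \ X').filter
      (fun e => ¬ (a e ∈ B ↔ b e ∈ B))).card by unfold cn at h1; omega)
    have h3 := hspan B e (Finset.mem_filter.1 he).2
    omega
  set c' := c / 2 with hc'
  let q : E → ℕ := fun e => p e / 2
  have hqH : ∀ e ∈ H, q e = c' := fun e he => by
    show p e / 2 = c / 2
    rw [hc e he]
  have hqX : ∀ e, e ∉ H → q e + 4 ≤ 2 * c' := fun e he => by
    have := hp e he
    show p e / 2 + 4 ≤ 2 * (c / 2)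
    omega
  obtain ⟨r, n, hrn, hn⟩ : ∃ r n : ℕ, c' = 2 * r + n ∧ (3 ≤ n ∧ n ≤ 4 ∨ r = 0 ∧ n < 3) := by
    refine ⟨(c' - 3) / 2, c' - 2 * ((c' - 3) / 2), by omega, by omega⟩
  let u : E → ℕ := fun e => min r (q e / 4)
  let w : E → ℕ := fun e => q e - 4 * u e
  have hu : ∀ e, u e ≤ r := fun e => min_le_left _ _
  have huw : ∀ e, q e = 4 * u e + w e := by
    intro e
    have h1 : u e ≤ q e / 4 := min_le_right _ _
    show q e = 4 * u e + (q e - 4 * u e)
    omega
  have hw : ∀ e, e ∉ H → w e ≤ n := by
    intro e he
    have h1 := hqX e he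
    have h2 : u e = r ∨ u e = q e / 4 := min_choice _ _
    show q e - 4 * u e ≤ n
    omega
  have hA : ∀ t : ℕ, InIntCone G (fun e => if e ∈ H then 4 else (if t < u e then 8 else 0)) := by
    intro t
    obtain ⟨S, hS1, hS2⟩ := block G v hv (univ.filter (fun e => e ∉ H))
      (univ.filter (fun e => e ∉ H ∧ t < u e)) (by
        intro e he f hef
        rw [Finset.mem_filter] at he
        rw [htc e he.2 f hef]
        exact Finset.mem_filter.2 he) (by
        intro e he f hef
        rw [Finset.mem_filter] at he
        rw [htc e he.2.1 f hef]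
        exact Finset.mem_filter.2 he) (by
        intro X' hX' _ B
        exact hdel X' (fun e he => (Finset.mem_filter.1 (hX' he)).2) B)
    refine ⟨S, hS1, fun e => ?_⟩
    rw [hS2 e]
    simp only [Finset.mem_filter, Finset.mem_univ, true_and]
    by_cases h : e ∈ H <;> simp [h]
  have hB : ∀ t : ℕ, InIntCone G (fun e => if e ∈ H then 2 else (if t < w e then 2 else 0)) := by
    intro t
    obtain ⟨S, hS1, hS2⟩ := cover_minus G v hv
      (univ.filter (fun e => e ∉ H ∧ ¬ t < w e))
      (hdel _ (fun e he => (Finset.mem_filter.1 he).2.1))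
    refine ⟨S, hS1, fun e => ?_⟩
    rw [hS2 e]
    simp only [Finset.mem_filter, Finset.mem_univ, true_and]
    by_cases h1 : e ∈ H
    · simp [h1]
    · by_cases h2 : t < w e <;> simp [h1, h2]
  have hcnt : ∀ (n m k : ℕ), k ≤ n → ∑ t ∈ Finset.range n, (if t < k then m else 0) = m * k := by
    intro n m k hk
    rw [← Finset.sum_filter, Finset.sum_const, smul_eq_mul, mul_comm]
    congr 1
    have h7 : (Finset.range n).filter (fun t => t < k) = Finset.range k := by
      ext t
      rw [Finset.mem_filter, Finset.mem_range, Finset.mem_range]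
      omega
    rw [h7, Finset.card_range]
  have hA' := intCone_sum G (Finset.range r) _ (fun t _ => hA t)
  have hB' := intCone_sum G (Finset.range n) _ (fun t _ => hB t)
  refine intCone_add G (intCone_add G hA' hB' (fun e => rfl)) (odd_part G p hlat) ?_
  intro e
  show p e = ∑ t ∈ Finset.range r, (if e ∈ H then 4 else (if t < u e then 8 else 0)) +
    ∑ t ∈ Finset.range n, (if e ∈ H then 2 else (if t < w e then 2 else 0)) + p e % 2
  have hpe : p e = 2 * q e + p e % 2 := (Nat.div_add_mod (p e) 2).symm
  by_cases he : e ∈ H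
  · simp only [he, if_true, Finset.sum_const, Finset.card_range, smul_eq_mul]
    have h1 := hqH e he
    omega
  · simp only [he, if_false]
    rw [hcnt r 8 (u e) (hu e), hcnt n 2 (w e) (hw e he)]
    have h1 := huw e
    omega

end Pool.Agent.TH399.CC
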