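import Pool.Agent.TH399.CC.Pack
import Pool.Agent.TH399.CC.Span

set_option autoImplicit false
set_option linter.unusedSectionVars false

/-!
Circuit covers in graphs without small cuts, for weights within a factor of about
`(3 K - 2) / (K + 2)`.
-/

namespace Pool.Agent.TH399.CC

open Finset
open Pool.Agent.Helper879.ECD (F2 IsFlow f2_add_self f2_cases cn)
open Pool.Agent.H126R2.CDC (MGraph isFl_iff)
open Pool.Agent.H126R2.NC (TC rep InCone InLat InIntCone cone_lat_of_intCone cover_minus
  bridgeless_of_cone const_of_tc countP_sum f2_ne cr)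

variable {V E : Type} [Fintype V] [DecidableEq V] [Fintype E] [DecidableEq E]

lemma tc_trivial (a b : E → V) (h4 : ∀ X : Finset V, cn a b univ X = 0 ∨ 4 ≤ cn a b univ X)
    (e f : E) (hef : TC a b e f) : f = e := by
  classical
  by_contra hne
  obtain ⟨z, hz⟩ := hef
  have hcr : ∀ h, cr a b (univ.filter (fun w => z w = 1)) h ↔ (h = e ∨ h = f) := by
    intro h
    have h1 : cr a b (univ.filter (fun w => z w = 1)) h ↔ z (a h) + z (b h) = 1 := by
      simp only [cr, Finset.mem_filter, Finset.mem_univ, true_and]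
      exact f2_ne
    rw [h1, hz h]
    by_cases h2 : h = e
    · have h3 : ¬ h = f := fun h3 => hne (h3.symm.trans h2)
      simp [h2, Ne.symm hne]
    · by_cases h3 : h = f
      · simp [h3, hne]
      · simp [h2, h3]
  have h1 : cn a b univ (univ.filter (fun w => z w = 1)) = ({e, f} : Finset E).card := by
    unfold cn
    congr 1
    ext h
    rw [Finset.mem_filter, Finset.mem_insert, Finset.mem_singleton]
    have h2 := hcr h
    simp only [cr] at h2
    rw [h2]
    simp
  rw [Finset.card_pair (Ne.symm hne)] at h1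
  rcases h4 (univ.filter (fun w => z w = 1)) with h2 | h2 <;> omega

lemma sum_min (m u : ℕ) : ∀ r, ∑ τ ∈ Finset.range r, min m (u - m * τ) = min u (m * r) := by
  intro r
  induction r with
  | zero => simp
  | succ r ih =>
    rw [Finset.sum_range_succ, ih, Nat.mul_succ]
    generalize m * r = x
    omega

/-- the main construction in graphs without small cuts, for even weights `2 q` -/
theorem cover_evenK (K : ℕ) (hK : 4 ≤ K) (G : MGraph V E) (v : E × Bool → V)
    (hv : ∀ e, G.ends e = s(v (e, false), v (e, true)))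
    (h4 : ∀ X : Finset V, cn (fun e => v (e, false)) (fun e => v (e, true)) univ X = 0 ∨
      K ≤ cn (fun e => v (e, false)) (fun e => v (e, true)) univ X)
    (q : E → ℕ)
    (hr : ∀ e f, (K + 2) * q e + 2 * (K - 2) * (3 * K + 5) ≤ (3 * K - 2) * q f) :
    InIntCone G (fun e => 2 * q e) := by
  classical
  obtain ⟨m, rfl⟩ : ∃ m, K = m + 2 := ⟨K - 2, by omega⟩
  have hm : 2 ≤ m := by omega
  simp only [Nat.add_sub_cancel] at hr
  by_cases hE : IsEmpty E
  · exact ⟨0, by simp, fun e => (hE.false e).elim⟩
  rw [not_isEmpty_iff] at hE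
  set a : E → V := fun e => v (e, false) with ha
  set b : E → V := fun e => v (e, true) with hb
  have h4' : ∀ X : Finset V, cn a b univ X = 0 ∨ 4 ≤ cn a b univ X := fun X => by
    rcases h4 X with h | h
    · exact Or.inl h
    · exact Or.inr (by omega)
  have htc := tc_trivial a b h4'
  obtain ⟨T, c, hT1, hT2⟩ := exists_classes (m + 2) hK a b h4
  obtain ⟨e0, -, he0⟩ := Finset.exists_max_image (univ : Finset E) q (Finset.univ_nonempty)
  obtain ⟨e1, -, he1⟩ := Finset.exists_min_image (univ : Finset E) q (Finset.univ_nonempty)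
  set M := q e0 with hM
  set μ := q e1 with hμ
  have hle0 : ∀ e, q e ≤ M := fun e => he0 e (Finset.mem_univ _)
  have hle1 : ∀ e, μ ≤ q e := fun e => he1 e (Finset.mem_univ _)
  have hMμ : (m + 2 + 2) * M + 2 * m * (3 * (m + 2) + 5) ≤ (3 * (m + 2) - 2) * μ := hr e0 e1
  have h32 : 3 * (m + 2) - 2 = 3 * m + 4 := by omega
  rw [h32] at hMμ
  have hμM : μ ≤ M := hle0 e1
  -- the number of rounds
  obtain ⟨r, d, hd, hrd⟩ : ∃ r d : ℕ, d < 2 * (m + 4) ∧
      μ = 2 * (m + 4) * r + 2 * (m + 4) + d := by
    have h1 : 2 * (m + 4) ≤ μ := by nlinarith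
    refine ⟨(μ - 2 * (m + 4)) / (2 * (m + 4)), (μ - 2 * (m + 4)) % (2 * (m + 4)),
      Nat.mod_lt _ (by omega), ?_⟩
    have h2 := Nat.div_add_mod (μ - 2 * (m + 4)) (2 * (m + 4))
    omega
  have hMtop : M ≤ μ + 4 * (m * r) + 2 * m := by
    by_contra hcon
    push Not at hcon
    have h1 : μ + 4 * (m * r) + 2 * m + 1 ≤ M := hcon
    have h2 := Nat.mul_le_mul_left (m + 2 + 2) h1
    nlinarith
  let x : E → ℕ := fun e => q e - μ
  let u : E → ℕ := fun e => min (m * r) (x e / 4)
  let w : E → ℕ := fun e => x e - 4 * u e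
  have hu : ∀ e, u e ≤ m * r := fun e => min_le_left _ _
  have hux : ∀ e, 4 * u e ≤ x e := fun e => by
    have h1 : u e ≤ x e / 4 := min_le_right _ _
    omega
  have hw : ∀ e, w e ≤ m * 2 := by
    intro e
    have h1 : x e ≤ 4 * (m * r) + 2 * m := by
      show q e - μ ≤ _
      have := hle0 e
      omega
    have h2 : u e = m * r ∨ u e = x e / 4 := min_choice _ _
    show x e - 4 * u e ≤ m * 2
    omega
  have hq : ∀ e, q e = μ + 4 * u e + w e := by
    intro e
    have h1 := hux e
    have h2 := hle1 e
    show q e = μ + 4 * u e + (x e - 4 * u e)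
    have h3 : x e = q e - μ := rfl
    omega
  -- the slots
  have hslot : ∀ e, ∃ t : Finset (Fin (m + 2)), t ⊆ univ.filter (fun i => e ∉ T i) ∧
      t.card = m := by
    intro e
    apply Finset.exists_subset_card_eq
    have := hT1 e
    omega
  choose t ht1 ht2 using hslot
  have hP : ∀ (u : E → ℕ) (τ : ℕ) (e : E), ∃ P : Finset (Fin (m + 2)), P ⊆ t e ∧
      P.card = min m (u e - m * τ) := by
    intro u τ e
    apply Finset.exists_subset_card_eq
    rw [ht2]
    exact min_le_left _ _
  choose P hP1 hP2 using hP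
  have hclosed : ∀ X : Finset E, ∀ e ∈ X, ∀ f, TC a b e f → f ∈ X := by
    intro X e he f hef
    rw [htc e f hef]
    exact he
  -- the rounds with eight shifted even sets
  have hA : ∀ (τ : ℕ) (i : Fin (m + 2)) (β : Bool), InIntCone G (fun e =>
      if (i ∈ t e ∧ c i e = β) then (if i ∈ P u τ e then 8 else 0) else 4) := by
    intro τ i β
    obtain ⟨S, hS1, hS2⟩ := block G v hv (univ.filter (fun e => i ∈ t e ∧ c i e = β))
      (univ.filter (fun e => i ∈ P u τ e)) (hclosed _) (hclosed _) (by
        intro X' hX' _ B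
        refine hT2 i β X' ?_ B
        intro e he
        have h1 := (Finset.mem_filter.1 (hX' he)).2
        exact ⟨(Finset.mem_filter.1 (ht1 e h1.1)).2, h1.2⟩)
    refine ⟨S, hS1, fun e => ?_⟩
    rw [hS2 e]
    simp only [Finset.mem_filter, Finset.mem_univ, true_and]
  -- the rounds with double covers
  have hB : ∀ (τ : ℕ) (i : Fin (m + 2)) (β : Bool), InIntCone G (fun e =>
      if (i ∈ t e ∧ c i e = β) then (if i ∈ P w τ e then 2 else 0) else 2) := by
    intro τ i β
    obtain ⟨S, hS1, hS2⟩ := cover_minus G v hv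
      (univ.filter (fun e => (i ∈ t e ∧ c i e = β) ∧ i ∉ P w τ e)) (by
        intro B
        refine hT2 i β _ ?_ B
        intro e he
        have h1 := (Finset.mem_filter.1 he).2.1
        exact ⟨(Finset.mem_filter.1 (ht1 e h1.1)).2, h1.2⟩)
    refine ⟨S, hS1, fun e => ?_⟩
    rw [hS2 e]
    simp only [Finset.mem_filter, Finset.mem_univ, true_and]
    by_cases h1 : i ∈ t e ∧ c i e = β
    · by_cases h2 : i ∈ P w τ e <;> simp [h1, h2]
    · simp [h1]
  have hC : InIntCone G (fun _ => 2 * d) := by
    obtain ⟨S, hS1, hS2⟩ := cover_minus G v hv ∅ (by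
      intro B
      rw [Finset.sdiff_empty]
      intro h1
      have h2 : cn a b univ B = 1 := h1
      rcases h4' B with h | h <;> omega)
    refine ⟨d • S, fun C hC => hS1 C (Multiset.mem_of_mem_nsmul hC), fun e => ?_⟩
    rw [Multiset.countP_nsmul, hS2 e]
    simp [mul_comm]
  have hsum : ∀ (u : E → ℕ) (z τ : ℕ) (e : E), ∑ i : Fin (m + 2), ∑ β : Bool,
      (if (i ∈ t e ∧ c i e = β) then (if i ∈ P u τ e then 2 * z else 0) else z) =
      (m + 4) * z + 2 * z * min m (u e - m * τ) := by
    intro u z τ e
    have h1 : ∀ i : Fin (m + 2), ∑ β : Bool,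
        (if (i ∈ t e ∧ c i e = β) then (if i ∈ P u τ e then 2 * z else 0) else z) +
          (if i ∈ t e then z else 0) = (if i ∈ P u τ e then 2 * z else 0) + 2 * z := by
      intro i
      rw [Fintype.sum_bool]
      by_cases h2 : i ∈ t e
      · simp only [h2, true_and, if_true]
        cases hc : c i e
        · simp only [Bool.false_eq_true, if_false, if_true]
          ring
        · simp only [if_true, Bool.true_eq_false, if_false]
          ring
      · have h3 : i ∉ P u τ e := fun h => h2 (hP1 u τ e h)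
        simp only [h2, h3, false_and, if_false]
        ring
    have h2 := Finset.sum_congr rfl (fun i (_ : i ∈ (univ : Finset (Fin (m + 2)))) => h1 i)
    rw [Finset.sum_add_distrib, Finset.sum_add_distrib, Finset.sum_ite_mem, Finset.sum_ite_mem,
      Finset.univ_inter, Finset.univ_inter, Finset.sum_const, Finset.sum_const, Finset.sum_const,
      Finset.card_univ, Fintype.card_fin, ht2, hP2] at h2
    simp only [smul_eq_mul] at h2
    generalize min m (u e - m * τ) = y at h2 ⊢
    nlinarith
  have hA' := intCone_sum G (Finset.range r) _ (fun τ _ =>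
    intCone_sum G (univ : Finset (Fin (m + 2))) _ (fun i _ =>
      intCone_sum G (univ : Finset Bool) _ (fun β _ => hA τ i β)))
  have hB' := intCone_sum G (Finset.range 2) _ (fun τ _ =>
    intCone_sum G (univ : Finset (Fin (m + 2))) _ (fun i _ =>
      intCone_sum G (univ : Finset Bool) _ (fun β _ => hB τ i β)))
  refine intCone_add G (intCone_add G hA' hB' (fun e => rfl)) hC ?_
  intro e
  show 2 * q e = ∑ τ ∈ Finset.range r, ∑ i : Fin (m + 2), ∑ β : Bool,
      (if (i ∈ t e ∧ c i e = β) then (if i ∈ P u τ e then 8 else 0) else 4) +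
    ∑ τ ∈ Finset.range 2, ∑ i : Fin (m + 2), ∑ β : Bool,
      (if (i ∈ t e ∧ c i e = β) then (if i ∈ P w τ e then 2 else 0) else 2) + 2 * d
  have hs8 : ∀ τ ∈ Finset.range r, ∑ i : Fin (m + 2), ∑ β : Bool,
      (if (i ∈ t e ∧ c i e = β) then (if i ∈ P u τ e then 8 else 0) else 4) =
      (m + 4) * 4 + 8 * min m (u e - m * τ) := fun τ _ => hsum u 4 τ e
  -- double covers: the value on a kept edge is two
  have hs2 : ∀ τ ∈ Finset.range 2, ∑ i : Fin (m + 2), ∑ β : Bool,
      (if (i ∈ t e ∧ c i e = β) then (if i ∈ P w τ e then 2 else 0) else 2) =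
      (m + 4) * 2 + 2 * min m (w e - m * τ) := by
    intro τ _
    have h1 : ∀ i : Fin (m + 2), ∑ β : Bool,
        (if (i ∈ t e ∧ c i e = β) then (if i ∈ P w τ e then 2 else 0) else 2) +
          (if i ∈ t e then 2 else 0) = (if i ∈ P w τ e then 2 else 0) + 4 := by
      intro i
      rw [Fintype.sum_bool]
      by_cases h2 : i ∈ t e
      · simp only [h2, true_and, if_true]
        cases hc : c i e
        · simp only [Bool.false_eq_true, if_false, if_true]
          ring
        · simp only [if_true, Bool.true_eq_false, if_false]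
      · have h3 : i ∉ P w τ e := fun h => h2 (hP1 w τ e h)
        simp only [h2, h3, false_and, if_false]
    have h2 := Finset.sum_congr rfl (fun i (_ : i ∈ (univ : Finset (Fin (m + 2)))) => h1 i)
    rw [Finset.sum_add_distrib, Finset.sum_add_distrib, Finset.sum_ite_mem, Finset.sum_ite_mem,
      Finset.univ_inter, Finset.univ_inter, Finset.sum_const, Finset.sum_const, Finset.sum_const,
      Finset.card_univ, Fintype.card_fin, ht2, hP2] at h2
    simp only [smul_eq_mul] at h2
    generalize min m (w e - m * τ) = y at h2 ⊢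
    omega
  rw [Finset.sum_congr rfl hs8, Finset.sum_congr rfl hs2, Finset.sum_add_distrib,
    Finset.sum_add_distrib, Finset.sum_const, Finset.sum_const, Finset.card_range,
    Finset.card_range, ← Finset.mul_sum, ← Finset.mul_sum, sum_min, sum_min,
    min_eq_left (hu e), min_eq_left (hw e)]
  simp only [smul_eq_mul]
  have h1 := hq e
  rw [h1, hrd]
  ring

end Pool.Agent.TH399.CC
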