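import Pool.Agent.TH399.CC.Two
import Pool.Agent.H126R2.NC.L2

set_option autoImplicit false
set_option linter.unusedSectionVars false

/-!
Packing `K` spanning sets of edges, no edge in more than two of them, in a graph without nonempty
cuts of size less than `K`; the resulting deletable classes.
-/

namespace Pool.Agent.TH399.CC

open Finset
open Pool.Agent.Helper879.ECD (sp Ind sp_mono mem_sp mem_sp_exch sp_exch F2 IsFlow inc fnl
  fnl_single fnl_inc cn f2_add_self exists_coeff)
open Pool.Agent.H126R2.CDC (packK)
open Pool.Agent.H126R2.NC (cr Spn Acy spn_of_sp exists_base)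

variable {W E : Type} [Fintype W] [DecidableEq W] [Fintype E] [DecidableEq E]

open Classical in
/-- rank condition for graphs whose nonzero cuts have at least `K` edges -/
lemma rank_condK (K : ℕ) (a b : E → W) (h4 : ∀ X : Finset W, cn a b univ X = 0 ∨ K ≤ cn a b univ X)
    (S : Submodule F2 (W → F2)) :
    K * Module.finrank F2 (sp F2 (inc a b) univ) ≤
      K * Module.finrank F2 S +
        2 * (univ.filter (fun e => ¬ inc a b e ∈ S)).card := by
  let r : W → W → Prop := fun w v => (Pi.single w 1 + Pi.single v 1 : W → F2) ∈ S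
  have hself : ∀ u : W → F2, u + u = 0 := by
    intro u; ext w; exact f2_add_self _
  have hr_refl : ∀ w, r w w := by
    intro w
    show (Pi.single w 1 + Pi.single w 1 : W → F2) ∈ S
    rw [hself]; exact S.zero_mem
  have hr_symm : ∀ w v, r w v → r v w := by
    intro w v h
    show (Pi.single v 1 + Pi.single w 1 : W → F2) ∈ S
    rw [add_comm]; exact h
  have hr_trans : ∀ u v w, r u v → r v w → r u w := by
    intro u v w h1 h2
    have h3 := S.add_mem h1 h2
    have h4 : (Pi.single u 1 + Pi.single v 1 : W → F2) + (Pi.single v 1 + Pi.single w 1) =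
        Pi.single u 1 + Pi.single w 1 := by
      rw [show (Pi.single u 1 + Pi.single v 1 : W → F2) + (Pi.single v 1 + Pi.single w 1) =
        Pi.single u 1 + (Pi.single v 1 + Pi.single v 1) + Pi.single w 1 by abel, hself, add_zero]
    rw [h4] at h3
    exact h3
  let cls : W → Finset W := fun w => univ.filter (fun v => r w v)
  have hcls : ∀ w v, v ∈ cls w ↔ r w v := by intro w v; simp [cls]
  have hcls_eq : ∀ w v, r w v → cls w = cls v := by
    intro w v h
    ext u
    rw [hcls, hcls]
    exact ⟨fun h' => hr_trans _ _ _ (hr_symm _ _ h) h', fun h' => hr_trans _ _ _ h h'⟩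
  let P : Finset (Finset W) := univ.image cls
  have hPmem : ∀ w, cls w ∈ P := fun w => Finset.mem_image_of_mem _ (Finset.mem_univ _)
  have hPuniq : ∀ X ∈ P, ∀ w ∈ X, X = cls w := by
    intro X hX w hw
    obtain ⟨v, _, rfl⟩ := Finset.mem_image.1 hX
    exact hcls_eq _ _ ((hcls _ _).1 hw)
  let P' : Finset (Finset W) := P.filter (fun X => cn a b univ X ≠ 0)
  have hE : ∀ e, inc a b e ∈ S ↔ r (a e) (b e) := fun e => Iff.rfl
  -- counting
  have hcount : ∑ X ∈ P, cn a b univ X =
      2 * (univ.filter (fun e => ¬ inc a b e ∈ S)).card := by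
    simp only [cn, Finset.card_filter, Finset.mul_sum]
    rw [Finset.sum_comm]
    apply Finset.sum_congr rfl
    intro e _
    by_cases h : inc a b e ∈ S
    · have h1 : ∀ X ∈ P, (if ¬ (a e ∈ X ↔ b e ∈ X) then 1 else 0) = 0 := by
        intro X hX
        rw [if_neg]
        rw [not_not]
        constructor
        · intro h2
          rw [hPuniq X hX _ h2, hcls]
          exact (hE e).1 h
        · intro h2
          rw [hPuniq X hX _ h2, hcls]
          exact hr_symm _ _ ((hE e).1 h)
      rw [Finset.sum_congr rfl h1]
      simp [h]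
    · have hne : cls (a e) ≠ cls (b e) := by
        intro h2
        apply h
        rw [hE]
        have : b e ∈ cls (b e) := (hcls _ _).2 (hr_refl _)
        rw [← h2, hcls] at this
        exact this
      have h1 : ∀ X ∈ P, (if ¬ (a e ∈ X ↔ b e ∈ X) then 1 else 0) =
          (if X = cls (a e) then 1 else 0) + (if X = cls (b e) then 1 else 0) := by
        intro X hX
        have ha : a e ∈ X ↔ X = cls (a e) :=
          ⟨fun h2 => hPuniq X hX _ h2, fun h2 => by rw [h2, hcls]; exact hr_refl _⟩
        have hb : b e ∈ X ↔ X = cls (b e) :=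
          ⟨fun h2 => hPuniq X hX _ h2, fun h2 => by rw [h2, hcls]; exact hr_refl _⟩
        by_cases h2 : X = cls (a e)
        · have h3 : ¬ X = cls (b e) := fun h3 => hne (h2.symm.trans h3)
          rw [if_pos, if_pos h2, if_neg h3]
          intro h4
          exact h3 (hb.1 (h4.1 (ha.2 h2)))
        · by_cases h3 : X = cls (b e)
          · rw [if_pos, if_neg h2, if_pos h3]
            intro h4
            exact h2 (ha.1 (h4.2 (hb.2 h3)))
          · rw [if_neg, if_neg h2, if_neg h3]
            rw [not_not]
            exact ⟨fun h4 => absurd (ha.1 h4) h2, fun h4 => absurd (hb.1 h4) h3⟩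
      rw [Finset.sum_congr rfl h1, Finset.sum_add_distrib]
      simp [h, hPmem]
  have hP' : K * P'.card ≤ 2 * (univ.filter (fun e => ¬ inc a b e ∈ S)).card := by
    have h1 : K * P'.card ≤ ∑ X ∈ P', cn a b univ X := by
      have := Finset.card_nsmul_le_sum P' (fun X => cn a b univ X) K (by
        intro X hX
        have h2 := (Finset.mem_filter.1 hX).2
        rcases h4 X with h3 | h3
        · exact absurd h3 h2
        · exact h3)
      rw [smul_eq_mul, mul_comm] at this
      exact this
    have h2 : ∑ X ∈ P', cn a b univ X ≤ ∑ X ∈ P, cn a b univ X :=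
      Finset.sum_le_sum_of_subset (Finset.filter_subset _ _)
    omega
  -- representatives
  have hrep : ∀ X ∈ P, ∃ w, w ∈ X := by
    intro X hX
    obtain ⟨v, _, rfl⟩ := Finset.mem_image.1 hX
    exact ⟨v, (hcls _ _).2 (hr_refl _)⟩
  by_cases hWe : IsEmpty W
  · have : (sp F2 (inc a b) univ) ≤ S := by
      unfold sp
      rw [Submodule.span_le]
      rintro _ ⟨e, _, rfl⟩
      exact (hWe.false (a e)).elim
    have := Nat.mul_le_mul_left K (Submodule.finrank_mono this)
    omega
  rw [not_isEmpty_iff] at hWe
  choose! rep hrep using hrep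
  let T : Finset (W → F2) := P'.image (fun X => Pi.single (rep X) 1)
  have hle : sp F2 (inc a b) univ ≤ S ⊔ Submodule.span F2 (T : Set (W → F2)) := by
    unfold sp
    rw [Submodule.span_le]
    rintro _ ⟨e, _, rfl⟩
    by_cases h : inc a b e ∈ S
    · exact Submodule.mem_sup_left h
    · have hne : cls (a e) ≠ cls (b e) := by
        intro h2
        apply h
        rw [hE]
        have : b e ∈ cls (b e) := (hcls _ _).2 (hr_refl _)
        rw [← h2, hcls] at this
        exact this
      have key : ∀ w, (w = a e ∨ w = b e) → cls w ∈ P' := by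
        intro w hw
        rw [Finset.mem_filter]
        refine ⟨hPmem _, ?_⟩
        unfold cn
        rw [Finset.card_ne_zero]
        refine ⟨e, ?_⟩
        rw [Finset.mem_filter]
        refine ⟨Finset.mem_univ _, ?_⟩
        intro h2
        apply h
        rw [hE]
        rcases hw with rfl | rfl
        · exact (hcls _ _).1 (h2.1 ((hcls _ _).2 (hr_refl _)))
        · exact hr_symm _ _ ((hcls _ _).1 (h2.2 ((hcls _ _).2 (hr_refl _))))
      have hmem : ∀ w, (w = a e ∨ w = b e) →
          (Pi.single w 1 : W → F2) ∈ S ⊔ Submodule.span F2 (T : Set (W → F2)) := by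
        intro w hw
        have h1 : (Pi.single w 1 + Pi.single (rep (cls w)) 1 : W → F2) ∈ S :=
          (hcls _ _).1 (hrep _ (hPmem w))
        have h2 : (Pi.single (rep (cls w)) 1 : W → F2) ∈ Submodule.span F2 (T : Set (W → F2)) := by
          apply Submodule.subset_span
          rw [Finset.mem_coe]
          exact Finset.mem_image.2 ⟨cls w, key w hw, rfl⟩
        have h3 : (Pi.single w 1 : W → F2) =
            (Pi.single w 1 + Pi.single (rep (cls w)) 1) + Pi.single (rep (cls w)) 1 := by
          rw [add_assoc, hself, add_zero]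
        rw [h3]
        exact Submodule.add_mem _ (Submodule.mem_sup_left h1) (Submodule.mem_sup_right h2)
      exact Submodule.add_mem _ (hmem _ (Or.inl rfl)) (hmem _ (Or.inr rfl))
  have h1 := Submodule.finrank_mono hle
  have h2 := Submodule.finrank_add_le_finrank_add_finrank S (Submodule.span F2 (T : Set (W → F2)))
  have h3 : Module.finrank F2 (Submodule.span F2 (T : Set (W → F2))) ≤ T.card :=
    finrank_span_finset_le_card T
  have h5 : T.card ≤ P'.card := Finset.card_image_le
  have h6 : Module.finrank F2 (sp F2 (inc a b) univ) ≤ Module.finrank F2 S + P'.card := by omega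
  have h7 := Nat.mul_le_mul_left K h6
  rw [Nat.mul_add] at h7
  omega



/-- `K` spanning sets, every edge in at most two of them -/
lemma exists_K (K : ℕ) (a b : E → W)
    (h4 : ∀ X : Finset W, cn a b univ X = 0 ∨ K ≤ cn a b univ X) :
    ∃ S : Fin K → Finset E, (∀ i, Spn a b (S i)) ∧
      ∀ e, K ≤ (univ.filter (fun i => e ∉ S i)).card + 2 := by
  classical
  have hrank : ∀ R : Finset (E × Fin 2), Fintype.card (Fin K) *
      Module.finrank F2 (sp F2 (fun p : E × Fin 2 => inc a b p.1) univ) ≤
      Fintype.card (Fin K) * Module.finrank F2 (sp F2 (fun p : E × Fin 2 => inc a b p.1) R) +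
        (univ.filter (fun p : E × Fin 2 =>
          ¬ inc a b p.1 ∈ sp F2 (fun p : E × Fin 2 => inc a b p.1) R)).card := by
    intro R
    have h1 := rank_condK K a b h4 (sp F2 (fun p : E × Fin 2 => inc a b p.1) R)
    have h2 : sp F2 (fun p : E × Fin 2 => inc a b p.1) univ = sp F2 (inc a b) univ := by
      unfold sp
      congr 1
      ext u
      simp
    have h3 : (univ.filter (fun p : E × Fin 2 =>
          ¬ inc a b p.1 ∈ sp F2 (fun p : E × Fin 2 => inc a b p.1) R)).card =
        2 * (univ.filter (fun e : E =>
          ¬ inc a b e ∈ sp F2 (fun p : E × Fin 2 => inc a b p.1) R)).card := by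
      have h4 : univ.filter (fun p : E × Fin 2 =>
          ¬ inc a b p.1 ∈ sp F2 (fun p : E × Fin 2 => inc a b p.1) R) =
          (univ.filter (fun e : E =>
          ¬ inc a b e ∈ sp F2 (fun p : E × Fin 2 => inc a b p.1) R)) ×ˢ (univ : Finset (Fin 2)) := by
        ext p; simp
      rw [h4, Finset.card_product, Finset.card_univ, Fintype.card_fin, mul_comm]
    rw [h2, h3, Fintype.card_fin]
    exact h1
  obtain ⟨I, hd, hI⟩ := packK (K := Fin K) (F := F2)
    (x := fun p : E × Fin 2 => inc a b p.1) hrank
  have hT : ∀ i : Fin K, sp F2 (inc a b) ((I i).image Prod.fst) = sp F2 (inc a b) univ := by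
    intro i
    have h1 := hI i
    have h2 : sp F2 (fun p : E × Fin 2 => inc a b p.1) univ = sp F2 (inc a b) univ := by
      unfold sp
      congr 1
      ext u
      simp
    have h3 : sp F2 (fun p : E × Fin 2 => inc a b p.1) (I i) =
        sp F2 (inc a b) ((I i).image Prod.fst) := by
      unfold sp
      congr 1
      ext u
      simp
    rw [← h3, h1, h2]
  refine ⟨fun i => (I i).image Prod.fst, fun i => spn_of_sp a b _ (hT i), ?_⟩
  intro e
  -- at most two of the sets contain `e`
  have h1 : (univ.filter (fun i : Fin K => e ∈ (I i).image Prod.fst)).card ≤ 2 := by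
    have hmem : ∀ i ∈ univ.filter (fun i : Fin K => e ∈ (I i).image Prod.fst),
        ∃ j : Fin 2, (e, j) ∈ I i := by
      intro i hi
      obtain ⟨⟨e', j⟩, hp, rfl⟩ := Finset.mem_image.1 (Finset.mem_filter.1 hi).2
      exact ⟨j, hp⟩
    choose! j hj using hmem
    have h2 := Finset.card_le_card_of_injOn (s := univ.filter
      (fun i : Fin K => e ∈ (I i).image Prod.fst)) (t := (univ : Finset (Fin 2))) j
      (fun i _ => Finset.mem_coe.2 (Finset.mem_univ _)) (by
        intro i1 hi1 i2 hi2 heq
        by_contra hne
        have m1 := hj i1 (Finset.mem_coe.1 hi1)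
        have m2 := hj i2 (Finset.mem_coe.1 hi2)
        rw [heq] at m1
        exact Finset.disjoint_left.1 (hd i1 i2 hne) m1 m2)
    simpa using h2
  have h2 := Finset.card_filter_add_card_filter_not (s := (univ : Finset (Fin K)))
    (fun i => e ∈ (I i).image Prod.fst)
  rw [Finset.card_univ, Fintype.card_fin] at h2
  show K ≤ (univ.filter (fun i => ¬ e ∈ (I i).image Prod.fst)).card + 2
  omega

/-- deletable classes: `K` spanning trees, no edge in more than two of them, together with
two-colourings of the other edges -/
theorem exists_classes (K : ℕ) (hK : 4 ≤ K) (a b : E → W)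
    (h4 : ∀ X : Finset W, cn a b univ X = 0 ∨ K ≤ cn a b univ X) :
    ∃ (T : Fin K → Finset E) (c : Fin K → E → Bool),
      (∀ e, K ≤ (univ.filter (fun i => e ∉ T i)).card + 2) ∧
      ∀ (i : Fin K) (β : Bool) (X : Finset E), (∀ e ∈ X, e ∉ T i ∧ c i e = β) →
        ∀ B : Finset W, cn a b (univ \ X) B ≠ 1 := by
  classical
  obtain ⟨S, hS, hmiss⟩ := exists_K K a b h4
  choose T hTS hTspn hTacy using fun i => exists_base a b (S i) (hS i)
  choose c hc using fun i => exists_two_colouring a b (T i) (hTacy i) (hTspn i)
  refine ⟨T, c, ?_, ?_⟩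
  · intro e
    refine (hmiss e).trans (Nat.add_le_add_right (Finset.card_le_card ?_) 2)
    intro i hi
    rw [Finset.mem_filter] at hi ⊢
    exact ⟨hi.1, fun h => hi.2 (hTS i h)⟩
  · intro i β X hX B hB
    unfold cn at hB
    obtain ⟨t, ht⟩ := Finset.card_eq_one.1 hB
    have hmem : ∀ e, (e ∉ X ∧ cr a b B e) ↔ e = t := by
      intro e
      have : e ∈ (univ \ X).filter (fun e => ¬ (a e ∈ B ↔ b e ∈ B)) ↔ e ∈ ({t} : Finset E) := by
        rw [ht]
      simpa [cr] using this
    obtain ⟨htX, htB⟩ := (hmem t).2 rfl
    have hXT : ∀ e ∈ T i, e ∉ X := fun e he heX => (hX e heX).1 he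
    have htT : t ∈ T i := by
      by_contra htT
      refine hTspn i B ?_ t htB
      intro e he hc
      have := (hmem e).1 ⟨hXT e he, hc⟩
      exact htT (this ▸ he)
    have hcn : cn a b (T i) B = 1 := by
      unfold cn
      rw [Finset.card_eq_one]
      refine ⟨t, ?_⟩
      ext e
      rw [Finset.mem_filter, Finset.mem_singleton]
      constructor
      · rintro ⟨h1, h2⟩
        exact (hmem e).1 ⟨hXT e h1, h2⟩
      · rintro rfl
        exact ⟨htT, htB⟩
    have h3B : 4 ≤ cn a b univ B := by
      rcases h4 B with h | h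
      · exfalso
        unfold cn at h
        rw [Finset.card_eq_zero] at h
        have : t ∈ univ.filter (fun e => ¬ (a e ∈ B ↔ b e ∈ B)) :=
          Finset.mem_filter.2 ⟨Finset.mem_univ _, htB⟩
        rw [h] at this
        simp at this
      · omega
    have h2 : 3 ≤ (univ.filter (fun e => e ∉ T i ∧ cr a b B e)).card := by
      have h4 : (univ.filter (fun e => ¬ (a e ∈ B ↔ b e ∈ B))) ⊆
          insert t (univ.filter (fun e => e ∉ T i ∧ cr a b B e)) := by
        intro e he
        rw [Finset.mem_filter] at he
        rw [Finset.mem_insert, Finset.mem_filter]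
        by_cases heT : e ∈ T i
        · left
          exact (hmem e).1 ⟨hXT e heT, he.2⟩
        · right
          exact ⟨Finset.mem_univ _, heT, he.2⟩
      have h5 := Finset.card_le_card h4
      have h6 := Finset.card_insert_le t (univ.filter (fun e => e ∉ T i ∧ cr a b B e))
      unfold cn at h3B
      omega
    obtain ⟨e, e', he1, he2, he'1, he'2, hne⟩ := hc i B hcn h2
    have key : ∀ e, e ∉ T i → cr a b B e → c i e = β := by
      intro e h1 h2
      have h3 : e ∈ X := by
        by_contra h4
        exact h1 (((hmem e).1 ⟨h4, h2⟩) ▸ htT)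
      exact (hX e h3).2
    exact hne ((key e he1 he2).trans (key e' he'1 he'2).symm)

end Pool.Agent.TH399.CC
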