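import Pool.Agent.TH399.CC.Gadget

set_option autoImplicit false
set_option linter.unusedSectionVars false

/-!
Two-colouring the edges outside a spanning tree so that no fundamental cut (without its tree edge)
with at least three elements is monochromatic.
-/

namespace Pool.Agent.TH399.CC

open Finset
open Pool.Agent.Helper879.ECD (cn)
open Pool.Agent.H126R2.NC (cr Spn Acy exists_leaf lg_x1 lg_x2 lg_x3)

variable {W E : Type} [Fintype W] [DecidableEq W] [Fintype E] [DecidableEq E]

theorem two_colouring : ∀ (n : ℕ) (a b : E → W) (T : Finset E), T.card = n →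
    Acy a b T → Spn a b T →
    ∀ Γ : W → List (Gad E), (∀ w, ∀ g ∈ Γ w, Val g) →
    (∀ w, ∀ g ∈ Γ w, ∀ e ∈ sup g, e ∉ T ∧ cr a b {w} e) → (∀ w e, cnt e (Γ w) ≤ 1) →
    ∃ c : E → Bool, (∀ w, ∀ g ∈ Γ w, sat c g) ∧
      ∀ X : Finset W, cn a b T X = 1 →
        3 ≤ (univ.filter (fun e => e ∉ T ∧ cr a b X e)).card →
        ∃ e e', e ∉ T ∧ cr a b X e ∧ e' ∉ T ∧ cr a b X e' ∧ c e ≠ c e' := by
  classical
  intro n
  induction n with
  | zero =>
    intro a b T hT hA hS Γ hΓ1 hΓ2 hΓ3
    rw [Finset.card_eq_zero] at hT
    subst hT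
    refine ⟨fun _ => true, ?_, ?_⟩
    · intro w g hg
      exfalso
      have h1 := (hΓ2 w g hg g.1.1 (mem_sup.2 (Or.inl rfl))).2
      exact hS {w} (by simp) g.1.1 h1
    · intro X hX
      simp [cn] at hX
  | succ n ih =>
    intro a b T hT hA hS Γ hΓ1 hΓ2 hΓ3
    have hTne : T.Nonempty := by
      rw [← Finset.card_pos]; omega
    obtain ⟨t, ht, v, u, hvu, htv, hleaf⟩ := exists_leaf a b hA hTne
    -- Step 1: a gadget at `v`
    obtain ⟨Γv, hv1, hv2, hv3, hv4, hact⟩ : ∃ Γv : List (Gad E), (∀ g ∈ Γv, Val g) ∧
        (∀ g ∈ Γv, ∀ e ∈ sup g, e ∉ T ∧ cr a b {v} e) ∧ (∀ e, cnt e Γv ≤ 1) ∧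
        (∀ g ∈ Γ v, g ∈ Γv) ∧
        (3 ≤ (univ.filter (fun e => e ∉ T ∧ cr a b {v} e)).card → ∃ g, g ∈ Γv) := by
      by_cases hex : ∃ g, g ∈ Γ v
      · exact ⟨Γ v, hΓ1 v, hΓ2 v, hΓ3 v, fun _ h => h, fun _ => hex⟩
      · by_cases hcard : 3 ≤ (univ.filter (fun e => e ∉ T ∧ cr a b {v} e)).card
        · obtain ⟨e1, he1, e2, he2, e3, he3, h12, h13, h23⟩ := Finset.two_lt_card.1 hcard
          rw [Finset.mem_filter] at he1 he2 he3
          refine ⟨[((e1, e2), (e2, e3))], ?_, ?_, ?_, ?_, ?_⟩
          · intro g hg
            rw [List.mem_singleton] at hg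
            rw [hg]
            exact ⟨h12, h23, h12, h13, h23⟩
          · intro g hg e he
            rw [List.mem_singleton] at hg
            rw [hg, mem_sup] at he
            rcases he with rfl | rfl | rfl | rfl
            · exact he1.2
            · exact he2.2
            · exact he2.2
            · exact he3.2
          · intro e
            unfold cnt
            exact List.countP_le_length
          · intro g hg
            exact absurd ⟨g, hg⟩ hex
          · intro _
            exact ⟨_, List.mem_singleton.2 rfl⟩
        · exact ⟨Γ v, hΓ1 v, hΓ2 v, hΓ3 v, fun _ h => h, fun h => absurd h hcard⟩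
    -- Step 2: contraction
    let ρ : W → W := fun w => if w = v then u else w
    have hρv : ρ v = u := if_pos rfl
    have hρne : ∀ w, w ≠ v → ρ w = w := fun w hw => if_neg hw
    have hρX : ∀ X : Finset W, (v ∈ X ↔ u ∈ X) → ∀ w, ρ w ∈ X ↔ w ∈ X := by
      intro X hX w
      by_cases hw : w = v
      · rw [hw, hρv]; exact hX.symm
      · rw [hρne w hw]
    have hcrX : ∀ X : Finset W, (v ∈ X ↔ u ∈ X) → ∀ e,
        (cr (fun e => ρ (a e)) (fun e => ρ (b e)) X e ↔ cr a b X e) := by
      intro X hX e
      simp only [cr, hρX X hX]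
    have htX : ∀ X : Finset W, ¬ cr a b X t ↔ (v ∈ X ↔ u ∈ X) := by
      intro X
      simp only [cr]
      rw [not_not]
      rcases htv with ⟨h1, h2⟩ | ⟨h1, h2⟩
      · rw [h1, h2]
      · rw [h1, h2]; exact ⟨fun h => h.symm, fun h => h.symm⟩
    have hT'card : (T.erase t).card = n := by
      rw [Finset.card_erase_of_mem ht, hT]; rfl
    have hA' : Acy (fun e => ρ (a e)) (fun e => ρ (b e)) (T.erase t) := by
      intro t' ht'
      rw [Finset.mem_erase] at ht'
      obtain ⟨X, hX1, hX2⟩ := hA t' ht'.2
      have hXt := (htX X).1 (hX2 t ht ht'.1.symm)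
      refine ⟨X, (hcrX X hXt t').2 hX1, ?_⟩
      intro t'' ht'' hne
      rw [hcrX X hXt]
      exact hX2 t'' (Finset.mem_of_mem_erase ht'') hne
    have hS' : Spn (fun e => ρ (a e)) (fun e => ρ (b e)) (T.erase t) := by
      intro X hX e
      have h1 : ∀ e, cr a b (univ.filter (fun w => ρ w ∈ X)) e ↔
          cr (fun e => ρ (a e)) (fun e => ρ (b e)) X e := by
        intro e; simp [cr]
      rw [← h1]
      apply hS
      intro t' ht'
      by_cases htt : t' = t
      · subst htt
        rw [htX]
        simp only [Finset.mem_filter, Finset.mem_univ, true_and, hρv, hρne u hvu.symm]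
      · rw [h1]
        exact hX t' (Finset.mem_erase.2 ⟨htt, ht'⟩)
    -- Step 3: resolution of the gadgets at `v` and `u`
    have hcrw : ∀ (w : W) (e : E), cr a b {w} e ↔ ((a e = w ∧ b e ≠ w) ∨ (b e = w ∧ a e ≠ w)) := by
      intro w e
      simp only [cr, Finset.mem_singleton]
      by_cases h1 : a e = w <;> by_cases h2 : b e = w <;> simp [h1, h2]
    have hcrw' : ∀ (w : W) (e : E), cr (fun e => ρ (a e)) (fun e => ρ (b e)) {w} e ↔
        ((ρ (a e) = w ∧ ρ (b e) ≠ w) ∨ (ρ (b e) = w ∧ ρ (a e) ≠ w)) := by
      intro w e
      simp only [cr, Finset.mem_singleton]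
      by_cases h1 : ρ (a e) = w <;> by_cases h2 : ρ (b e) = w <;> simp [h1, h2]
    obtain ⟨L', k1, k2, k3, k4⟩ := resolve (univ.filter (fun e => ρ (a e) = ρ (b e)))
      (Γv ++ Γ u).length (Γv ++ Γ u) rfl
      (by
        intro g hg
        rcases List.mem_append.1 hg with h | h
        · exact hv1 g h
        · exact hΓ1 u g h)
      (by
        intro e
        rw [cnt_append]
        have h1 := hv3 e
        have h2 := hΓ3 u e
        omega)
      (by
        intro e he
        rw [cnt_append]
        have h1 := hv3 e
        have h2 := hΓ3 u e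
        by_contra hcon
        have h3 : 0 < cnt e Γv := by omega
        have h4 : 0 < cnt e (Γ u) := by omega
        obtain ⟨g, hg, heg⟩ := cnt_pos.1 h3
        obtain ⟨g', hg', heg'⟩ := cnt_pos.1 h4
        have h5 := (hcrw v e).1 (hv2 g hg e heg).2
        have h6 := (hcrw u e).1 (hΓ2 u g' hg' e heg').2
        apply he
        rw [Finset.mem_filter]
        refine ⟨Finset.mem_univ _, ?_⟩
        rcases h5 with ⟨p1, p2⟩ | ⟨p1, p2⟩
        · rcases h6 with ⟨q1, q2⟩ | ⟨q1, q2⟩
          · exact absurd (p1.symm.trans q1) hvu
          · rw [p1, q1, hρv, hρne u hvu.symm]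
        · rcases h6 with ⟨q1, q2⟩ | ⟨q1, q2⟩
          · rw [p1, q1, hρv, hρne u hvu.symm]
          · exact absurd (p1.symm.trans q1) hvu)
    have hdead : ∀ e, e ∈ univ.filter (fun e => ρ (a e) = ρ (b e)) ↔ ρ (a e) = ρ (b e) := by
      intro e; simp
    obtain ⟨c', hc'1, hc'2⟩ := ih (fun e => ρ (a e)) (fun e => ρ (b e)) (T.erase t) hT'card hA' hS'
      (fun w => if w = u then L' else if w = v then [] else Γ w)
      (by
        intro w g hg
        by_cases hwu : w = u
        · simp only [hwu, if_true] at hg
          exact k1 g hg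
        · by_cases hwv : w = v
          · simp only [hwv, hvu, if_false, if_true] at hg
            exact absurd hg (List.not_mem_nil)
          · simp only [hwu, hwv, if_false] at hg
            exact hΓ1 w g hg)
      (by
        intro w g hg e he
        by_cases hwu : w = u
        · simp only [hwu, if_true] at hg
          obtain ⟨m1, g0, m2, m3⟩ := k2 g hg e he
          rw [hdead] at m1
          have m4 : e ∉ T ∧ (cr a b {v} e ∨ cr a b {u} e) := by
            rcases List.mem_append.1 m2 with m | m
            · exact ⟨(hv2 g0 m e m3).1, Or.inl (hv2 g0 m e m3).2⟩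
            · exact ⟨(hΓ2 u g0 m e m3).1, Or.inr (hΓ2 u g0 m e m3).2⟩
          refine ⟨fun h => m4.1 (Finset.mem_of_mem_erase h), ?_⟩
          rw [hwu, hcrw']
          have m5 : ρ (a e) = u ∨ ρ (b e) = u := by
            rcases m4.2 with m | m
            · rcases (hcrw v e).1 m with ⟨p1, _⟩ | ⟨p1, _⟩
              · left; rw [p1, hρv]
              · right; rw [p1, hρv]
            · rcases (hcrw u e).1 m with ⟨p1, _⟩ | ⟨p1, _⟩
              · left; rw [p1, hρne u hvu.symm]
              · right; rw [p1, hρne u hvu.symm]
          rcases m5 with m | m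
          · left
            exact ⟨m, fun h => m1 (m.trans h.symm)⟩
          · right
            exact ⟨m, fun h => m1 (h.trans m.symm)⟩
        · by_cases hwv : w = v
          · simp only [hwv, hvu, if_false, if_true] at hg
            exact absurd hg (List.not_mem_nil)
          · simp only [hwu, hwv, if_false] at hg
            obtain ⟨m1, m2⟩ := hΓ2 w g hg e he
            refine ⟨fun h => m1 (Finset.mem_of_mem_erase h), ?_⟩
            have hρw : ∀ x, ρ x = w ↔ x = w := by
              intro x
              by_cases hx : x = v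
              · rw [hx, hρv]
                exact ⟨fun h => absurd h.symm hwu, fun h => absurd h.symm hwv⟩
              · rw [hρne x hx]
            rw [hcrw']
            rw [hcrw] at m2
            simp only [ne_eq, hρw]
            exact m2)
      (by
        intro w e
        by_cases hwu : w = u
        · simp only [hwu, if_true]
          exact k3 e
        · by_cases hwv : w = v
          · simp only [hwv, hvu, if_false, if_true]
            simp [cnt]
          · simp only [hwu, hwv, if_false]
            exact hΓ3 w e)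
    -- Step 4: recolouring of the dead edges
    obtain ⟨c, hc1, hc2⟩ := k4 c' (by
      intro g hg
      have h1 := hc'1 u g
      simp only [if_true] at h1
      exact h1 hg)
    refine ⟨c, ?_, ?_⟩
    · intro w g hg
      by_cases hwu : w = u
      · rw [hwu] at hg
        exact hc2 g (List.mem_append_right _ hg)
      · by_cases hwv : w = v
        · rw [hwv] at hg
          exact hc2 g (List.mem_append_left _ (hv4 g hg))
        · have h1 := hc'1 w g
          simp only [hwu, hwv, if_false] at h1
          rw [sat_congr (c' := c')]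
          · exact h1 hg
          · intro e he
            apply hc1
            rw [hdead]
            intro h2
            obtain ⟨m1, m2⟩ := hΓ2 w g hg e he
            rw [hcrw] at m2
            have hρw : ∀ x, ρ x = w ↔ x = w := by
              intro x
              by_cases hx : x = v
              · rw [hx, hρv]
                exact ⟨fun h => absurd h.symm hwu, fun h => absurd h.symm hwv⟩
              · rw [hρne x hx]
            rcases m2 with ⟨p1, p2⟩ | ⟨p1, p2⟩
            · exact p2 ((hρw _).1 (h2.symm.trans ((hρw _).2 p1)))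
            · exact p2 ((hρw _).1 (h2.trans ((hρw _).2 p1)))
    · intro X hX1 hX2
      by_cases htc : cr a b X t
      · -- the cut of the leaf edge
        have honly : ∀ t' ∈ T, t' ≠ t → ¬ cr a b X t' := by
          intro t' ht' hne hc
          unfold cn at hX1
          obtain ⟨t0, ht0⟩ := Finset.card_eq_one.1 hX1
          have h1 : t ∈ T.filter (fun e => ¬ (a e ∈ X ↔ b e ∈ X)) :=
            Finset.mem_filter.2 ⟨ht, htc⟩
          have h2 : t' ∈ T.filter (fun e => ¬ (a e ∈ X ↔ b e ∈ X)) :=
            Finset.mem_filter.2 ⟨ht', hc⟩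
          rw [ht0, Finset.mem_singleton] at h1 h2
          exact hne (h2.trans h1.symm)
        have hiff : ∀ e, cr a b X e ↔ cr a b {v} e := by
          intro e
          have h1 := hS (univ.filter (fun w => ¬ (w ∈ X ↔ w = v))) (by
            intro t' ht'
            by_cases htt : t' = t
            · subst htt
              have h2 : ¬ (v ∈ X ↔ u ∈ X) := fun h => (htX X).2 h htc
              rw [htX]
              simp only [Finset.mem_filter, Finset.mem_univ, true_and]
              exact lg_x3 h2 trivial hvu.symm
            · have h2 := honly t' ht' htt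
              obtain ⟨h3, h4⟩ := hleaf t' ht' htt
              simp only [cr, Finset.mem_filter, Finset.mem_univ, true_and]
              exact lg_x1 h2 h3 h4) e
          simp only [cr, Finset.mem_filter, Finset.mem_univ, true_and] at h1
          simp only [cr, Finset.mem_singleton]
          exact lg_x2 h1
        have h2 : 3 ≤ (univ.filter (fun e => e ∉ T ∧ cr a b {v} e)).card := by
          have h3 : (univ.filter (fun e => e ∉ T ∧ cr a b {v} e)) =
              (univ.filter (fun e => e ∉ T ∧ cr a b X e)) := by
            apply Finset.filter_congr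
            intro e _
            rw [hiff e]
          rw [h3]; exact hX2
        obtain ⟨g, hg⟩ := hact h2
        have hsat := hc2 g (List.mem_append_left _ hg)
        have hmem : ∀ e ∈ sup g, e ∉ T ∧ cr a b X e := fun e he =>
          ⟨(hv2 g hg e he).1, (hiff e).2 (hv2 g hg e he).2⟩
        rcases hsat with hs | hs
        · have m1 := hmem g.1.1 (mem_sup.2 (Or.inl rfl))
          have m2 := hmem g.1.2 (mem_sup.2 (Or.inr (Or.inl rfl)))
          exact ⟨g.1.1, g.1.2, m1.1, m1.2, m2.1, m2.2, hs⟩
        · have m1 := hmem g.2.1 (mem_sup.2 (Or.inr (Or.inr (Or.inl rfl))))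
          have m2 := hmem g.2.2 (mem_sup.2 (Or.inr (Or.inr (Or.inr rfl))))
          exact ⟨g.2.1, g.2.2, m1.1, m1.2, m2.1, m2.2, hs⟩
      · have hXt := (htX X).1 htc
        have h1 : cn (fun e => ρ (a e)) (fun e => ρ (b e)) (T.erase t) X = 1 := by
          rw [← hX1]
          unfold cn
          congr 1
          ext e
          simp only [Finset.mem_filter, Finset.mem_erase]
          have h2 := hcrX X hXt e
          simp only [cr] at h2
          rw [h2]
          constructor
          · rintro ⟨⟨_, h3⟩, h4⟩
            exact ⟨h3, h4⟩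
          · rintro ⟨h3, h4⟩
            exact ⟨⟨fun h5 => htc (h5 ▸ h4), h3⟩, h4⟩
        have h2 : 3 ≤ (univ.filter (fun e => e ∉ T.erase t ∧
            cr (fun e => ρ (a e)) (fun e => ρ (b e)) X e)).card := by
          refine hX2.trans (Finset.card_le_card ?_)
          intro e he
          rw [Finset.mem_filter] at he ⊢
          exact ⟨Finset.mem_univ _, fun h3 => he.2.1 (Finset.mem_of_mem_erase h3),
            (hcrX X hXt e).2 he.2.2⟩
        obtain ⟨e, e', he1, he2, he'1, he'2, hne⟩ := hc'2 X h1 h2
        have key : ∀ e, e ∉ T.erase t → cr (fun e => ρ (a e)) (fun e => ρ (b e)) X e →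
            e ∉ T ∧ cr a b X e ∧ c e = c' e := by
          intro e h3 h4
          have h5 := (hcrX X hXt e).1 h4
          refine ⟨fun h6 => h3 (Finset.mem_erase.2 ⟨fun h7 => htc (h7 ▸ h5), h6⟩), h5, ?_⟩
          apply hc1
          rw [hdead]
          intro h6
          apply h4
          show ρ (a e) ∈ X ↔ ρ (b e) ∈ X
          rw [h6]
        obtain ⟨p1, p2, p3⟩ := key e he1 he2
        obtain ⟨q1, q2, q3⟩ := key e' he'1 he'2
        exact ⟨e, e', p1, p2, q1, q2, by rw [p3, q3]; exact hne⟩

/-- Let `T` be a spanning tree (forest). The other edges can be coloured with two colours such that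
every fundamental cut with at least three other edges gets both colours. -/
theorem exists_two_colouring (a b : E → W) (T : Finset E) (hA : Acy a b T) (hS : Spn a b T) :
    ∃ c : E → Bool, ∀ X : Finset W, cn a b T X = 1 →
        3 ≤ (univ.filter (fun e => e ∉ T ∧ cr a b X e)).card →
        ∃ e e', e ∉ T ∧ cr a b X e ∧ e' ∉ T ∧ cr a b X e' ∧ c e ≠ c e' := by
  obtain ⟨c, -, hc⟩ := two_colouring T.card a b T rfl hA hS (fun _ => [])
    (fun w g hg => absurd hg List.not_mem_nil) (fun w g hg => absurd hg List.not_mem_nil)
    (fun w e => by simp [cnt])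
  exact ⟨c, hc⟩

end Pool.Agent.TH399.CC
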